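import Pool.Agent.Helper3.DL.Defs
import Pool.Agent.Helper13.DL.DL1
import Pool.Agent.Helper17.DL.Norms
import Pool.Agent.Helper4.DL.Cells

namespace Pool.Agent.DL

open MeasureTheory Finset

variable {n k : ℕ}


/-! ### DL-6: affine transfer -/

theorem DecIneq.mono {s : ℕ} {W W' : ℕ → Set (Fin n → ℝ)} {m : ℕ} {D D' : ℝ}
    (h : DecIneq s W m D) (hW : ∀ j : ℕ, j < m → W' j ⊆ W j) (hD : D ≤ D') :
    DecIneq s W' m D' := by
  intro f hf
  refine (h f fun j hj => (hf j hj).mono (hW j hj)).trans ?_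
  gcongr

theorem trEnorm_ee (t : ℝ) : ‖ee t‖ₑ = 1 := by
  have h : ‖ee t‖ = 1 := by
    unfold ee
    have : 2 * (Real.pi : ℂ) * t * Complex.I = ((2 * Real.pi * t : ℝ) : ℂ) * Complex.I := by
      push_cast; ring
    rw [this]
    exact Complex.norm_exp_ofReal_mul_I _
  rw [← ofReal_norm, h, ENNReal.ofReal_one]

/-- the dual change of variables -/
noncomputable def trL (Mt : Matrix (Fin n) (Fin n) ℝ) (y : Fin n → ℝ) : Fin n → ℝ :=
  (Mt⁻¹).transpose.mulVec y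

theorem trL_lintegral (Mt : Matrix (Fin n) (Fin n) ℝ) (hM : Mt.det ≠ 0)
    (F : (Fin n → ℝ) → ENNReal) :
    ∫⁻ y, F (trL Mt y) = ENNReal.ofReal |((Mt⁻¹).transpose.det)⁻¹| * ∫⁻ x, F x := by
  have hdet : ((Mt⁻¹).transpose).det ≠ 0 := by
    rw [Matrix.det_transpose, Matrix.det_nonsing_inv, Ring.inverse_eq_inv']
    exact inv_ne_zero hM
  have h1 := Real.map_matrix_volume_pi_eq_smul_volume_pi (M := (Mt⁻¹).transpose) hdet
  have hemb : MeasurableEmbedding (Matrix.toLin' (Mt⁻¹).transpose : (Fin n → ℝ) → (Fin n → ℝ)) := by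
    have hunit : IsUnit ((Mt⁻¹).transpose).det := isUnit_iff_ne_zero.2 hdet
    let e := (Matrix.toLinearEquiv' _ ((Matrix.isUnit_iff_isUnit_det _).2 hunit).invertible)
    exact e.toContinuousLinearEquiv.toHomeomorph.measurableEmbedding
  have h2 : ∀ y, trL Mt y = Matrix.toLin' (Mt⁻¹).transpose y := fun y => by
    rw [Matrix.toLin'_apply]; rfl
  simp only [h2]
  rw [← hemb.lintegral_map, h1, lintegral_smul_measure]
  rfl

theorem trL_adj (Mt : Matrix (Fin n) (Fin n) ℝ) (y ξ : Fin n → ℝ) :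
    dot (trL Mt y) ξ = dot y (Mt⁻¹.mulVec ξ) := by
  have h1 : ∀ a b : Fin n → ℝ, dot a b = a ⬝ᵥ b := fun _ _ => rfl
  rw [h1, h1, trL, Matrix.dotProduct_mulVec, Matrix.mulVec_transpose]

/-- the transferred function -/
noncomputable def trF (p₀ : Fin n → ℝ) (Mt : Matrix (Fin n) (Fin n) ℝ)
    (f : (Fin n → ℝ) → ℂ) : (Fin n → ℝ) → ℂ :=
  fun y => ee (dot y (-(Mt⁻¹.mulVec p₀))) * f (0 + trL Mt y)

theorem trF_spec (p₀ : Fin n → ℝ) (Mt : Matrix (Fin n) (Fin n) ℝ) (hM : Mt.det ≠ 0)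
    {U : Set (Fin n → ℝ)} {f : (Fin n → ℝ) → ℂ}
    (hf : Spec ((fun lam => p₀ + Mt.mulVec lam) '' U) f) : Spec U (trF p₀ Mt f) := by
  have h1 := hf.pull 0 (trL Mt) (fun ξ => Mt⁻¹.mulVec ξ) (by
    have : Continuous (fun ξ : Fin n → ℝ => Mt⁻¹.mulVec ξ) :=
      Continuous.matrix_mulVec continuous_const continuous_id
    exact this.measurable) (trL_adj Mt)
  have h2 := h1.mod (-(Mt⁻¹.mulVec p₀))
  refine h2.mono ?_
  rintro _ ⟨_, ⟨_, ⟨lam, hlam, rfl⟩, rfl⟩, rfl⟩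
  have e : -(Mt⁻¹.mulVec p₀) + Mt⁻¹.mulVec (p₀ + Mt.mulVec lam) = lam := by
    rw [Matrix.mulVec_add, Matrix.mulVec_mulVec,
      Matrix.nonsing_inv_mul _ (isUnit_iff_ne_zero.2 hM), Matrix.one_mulVec]
    abel
  simp only [e]
  exact hlam

theorem trF_sum (p₀ : Fin n → ℝ) (Mt : Matrix (Fin n) (Fin n) ℝ) (m : ℕ)
    (f : ℕ → (Fin n → ℝ) → ℂ) (y : Fin n → ℝ) :
    ∑ j ∈ range m, trF p₀ Mt (f j) y = trF p₀ Mt (fun x => ∑ j ∈ range m, f j x) y := by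
  unfold trF
  rw [Finset.mul_sum]

theorem trF_enorm (p₀ : Fin n → ℝ) (Mt : Matrix (Fin n) (Fin n) ℝ)
    (f : (Fin n → ℝ) → ℂ) (y : Fin n → ℝ) : ‖trF p₀ Mt f y‖ₑ = ‖f (trL Mt y)‖ₑ := by
  unfold trF
  rw [enorm_mul, trEnorm_ee, one_mul, zero_add]

/-- the scaling factor -/
noncomputable def trK (Mt : Matrix (Fin n) (Fin n) ℝ) : ENNReal :=
  ENNReal.ofReal |((Mt⁻¹).transpose.det)⁻¹|

theorem trK_ne_zero (Mt : Matrix (Fin n) (Fin n) ℝ) (hM : Mt.det ≠ 0) : trK Mt ≠ 0 := by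
  have hdet : ((Mt⁻¹).transpose).det ≠ 0 := by
    rw [Matrix.det_transpose, Matrix.det_nonsing_inv, Ring.inverse_eq_inv']
    exact inv_ne_zero hM
  unfold trK
  rw [ne_eq, ENNReal.ofReal_eq_zero, not_le]
  exact abs_pos.2 (inv_ne_zero hdet)

theorem trK_ne_top (Mt : Matrix (Fin n) (Fin n) ℝ) : trK Mt ≠ ⊤ := ENNReal.ofReal_ne_top

theorem trF_NN (s : ℕ) (p₀ : Fin n → ℝ) (Mt : Matrix (Fin n) (Fin n) ℝ)
    (hM : Mt.det ≠ 0) (f : (Fin n → ℝ) → ℂ) :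
    NN s (trF p₀ Mt f) = trK Mt ^ (1 / (s : ℝ)) * NN s f := by
  unfold NN
  simp only [trF_enorm]
  rw [trL_lintegral Mt hM (fun x => ‖f x‖ₑ ^ (2 * s)), ENNReal.mul_rpow_of_nonneg _ _ (by positivity)]
  rfl

theorem transfer {s : ℕ} (hs : 1 ≤ s) (p₀ : Fin n → ℝ) (Mt : Matrix (Fin n) (Fin n) ℝ)
    (hM : Mt.det ≠ 0) (W : ℕ → Set (Fin n → ℝ)) (m : ℕ) (D : ℝ) (h : DecIneq s W m D) :
    DecIneq s (fun j => (fun lam => p₀ + Mt.mulVec lam) '' W j) m D := by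
  intro f hf
  have h1 := h (fun j => trF p₀ Mt (f j)) (fun j hj => trF_spec p₀ Mt hM (hf j hj))
  simp only [trF_sum, trF_NN s p₀ Mt hM] at h1
  rw [← Finset.mul_sum] at h1
  have hc0 : trK Mt ^ (1 / (s : ℝ)) ≠ 0 := by
    rw [ne_eq, ENNReal.rpow_eq_zero_iff]
    push Not
    exact ⟨fun h => absurd h (trK_ne_zero Mt hM), fun h => absurd h (trK_ne_top Mt)⟩
  have hct : trK Mt ^ (1 / (s : ℝ)) ≠ ⊤ :=
    ENNReal.rpow_ne_top_of_nonneg (by positivity) (trK_ne_top Mt)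
  have h3 : ENNReal.ofReal D * (trK Mt ^ (1 / (s : ℝ)) * ∑ j ∈ range m, NN s (f j)) =
      trK Mt ^ (1 / (s : ℝ)) * (ENNReal.ofReal D * ∑ j ∈ range m, NN s (f j)) := by ring
  rw [h3] at h1
  exact (ENNReal.mul_le_mul_iff_right hc0 hct).1 h1

theorem transfer_bil {s a b : ℕ} (hs : 1 ≤ s) (hab : a + b = s) (p₀ : Fin n → ℝ)
    (Mt : Matrix (Fin n) (Fin n) ℝ) (hM : Mt.det ≠ 0) (W W' : ℕ → Set (Fin n → ℝ))
    (m m' : ℕ) (M : ℝ) (h : BilIneq s a b W W' m m' M) :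
    BilIneq s a b (fun j => (fun lam => p₀ + Mt.mulVec lam) '' W j)
      (fun j => (fun lam => p₀ + Mt.mulVec lam) '' W' j) m m' M := by
  intro f g hf hg
  have h1 := h (fun j => trF p₀ Mt (f j)) (fun j => trF p₀ Mt (g j))
    (fun j hj => trF_spec p₀ Mt hM (hf j hj)) (fun j hj => trF_spec p₀ Mt hM (hg j hj))
  simp only [trF_sum, trF_NN s p₀ Mt hM, trF_enorm] at h1
  rw [← Finset.mul_sum, ← Finset.mul_sum, trL_lintegral Mt hM
    (fun x => ‖∑ j ∈ range m, f j x‖ₑ ^ (2 * a) * ‖∑ j ∈ range m', g j x‖ₑ ^ (2 * b)),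
    mul_pow, mul_pow] at h1
  have hcs : (trK Mt ^ (1 / (s : ℝ))) ^ a * (trK Mt ^ (1 / (s : ℝ))) ^ b = trK Mt := by
    rw [← pow_add, hab, ← ENNReal.rpow_natCast, ← ENNReal.rpow_mul,
      one_div_mul_cancel (by positivity), ENNReal.rpow_one]
  have h3 : ENNReal.ofReal M * ((trK Mt ^ (1 / (s : ℝ))) ^ a * (∑ j ∈ range m, NN s (f j)) ^ a) *
      ((trK Mt ^ (1 / (s : ℝ))) ^ b * (∑ j ∈ range m', NN s (g j)) ^ b) =
      trK Mt * (ENNReal.ofReal M * (∑ j ∈ range m, NN s (f j)) ^ a *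
        (∑ j ∈ range m', NN s (g j)) ^ b) := by
    calc _ = ((trK Mt ^ (1 / (s : ℝ))) ^ a * (trK Mt ^ (1 / (s : ℝ))) ^ b) *
        (ENNReal.ofReal M * (∑ j ∈ range m, NN s (f j)) ^ a *
        (∑ j ∈ range m', NN s (g j)) ^ b) := by ring
      _ = _ := by rw [hcs]
  rw [h3] at h1
  exact (ENNReal.mul_le_mul_iff_right (trK_ne_zero Mt hM) (trK_ne_top Mt)).1 h1

theorem cell_arc (u σ v ρ' C : ℝ) :
    (fun lam => P (mom n) u σ 0 + (PM (mom n) u σ).mulVec lam) '' cell (mom n) v ρ' C =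
      cell (mom n) (u + σ * v) (σ * ρ') C := by
  rw [cell_comp]
  congr 1
  funext lam
  exact (P_eq _ _ _ _).symm

/-- decoupling for an arbitrary arc of the moment curve -/
theorem dec_arc {s : ℕ} (hs : 1 ≤ s) {C D : ℝ} {N : ℕ} (h : DecOn s (mom n) C 0 1 N D)
    (u σ : ℝ) (hσ : 0 < σ) : DecOn s (mom n) C u σ N D := by
  have h1 := transfer hs (P (mom n) u σ 0) (PM (mom n) u σ) (det_mom hσ.ne') _ _ _ h
  simp only [cell_arc] at h1
  unfold DecOn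
  have e : (fun j : ℕ => cell (mom n) (u + j * (σ / 2 ^ N)) (σ / 2 ^ N) C) =
      (fun j : ℕ => cell (mom n) (u + σ * (0 + j * (1 / 2 ^ N))) (σ * (1 / 2 ^ N)) C) := by
    funext j
    congr 1 <;> ring
  rw [e]
  exact h1

/-- the bilinear inequality after an affine change of the parameter -/
theorem bil_arc {k n : ℕ} (hk : 1 ≤ k) (hn : n ≤ k) {C M : ℝ} {A B N : ℕ} (h : Bil k n C A B N M) (u σ : ℝ)
    (hσ : 0 < σ) (t t' : ℝ) (h1 : t + (1 / 2) ^ A ≤ t' + 1) (h2 : t' + (1 / 2) ^ B ≤ t + 1)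
    (h3 : t' + (1 / 2) ^ B + 1 / 4 ≤ t ∨ t + (1 / 2) ^ A + 1 / 4 ≤ t') :
    BilIneq (tri k) (tri n) (tri k - tri n)
      (fun j => cell (mom k) (u + σ * (t + j * (1 / 2) ^ N)) (σ * (1 / 2) ^ N) C)
      (fun j => cell (mom k) (u + σ * (t' + j * (1 / 2) ^ N)) (σ * (1 / 2) ^ N) C)
      (2 ^ (N - A)) (2 ^ (N - B)) M := by
  have htri : tri n ≤ tri k := by
    unfold tri
    exact Nat.div_le_div_right (Nat.mul_le_mul hn (by omega))
  have hk1 : 1 ≤ tri k := by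
    unfold tri
    rw [Nat.le_div_iff_mul_le (by norm_num)]
    nlinarith
  have h4 := transfer_bil hk1 (by omega : tri n + (tri k - tri n) = tri k)
    (P (mom k) u σ 0) (PM (mom k) u σ) (det_mom hσ.ne') _ _ _ _ _ (h t t' h1 h2 h3)
  simp only [cell_arc] at h4
  exact h4

end Pool.Agent.DL
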